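import Mathlib
import Pool.Agent.H.MP_093203_gt.A

namespace Pool.Agent.Results.MP_093203_gt.No

open MeasureTheory Metric

section
variable {H : Type} [NormedAddCommGroup H] [InnerProductSpace ℝ H]

/-- symmetry group: affine isometries preserving the set -/
def Sym (A : Set H) : Set (H ≃ᵃⁱ[ℝ] H) := {T | T '' A = A}

/-- ellipsoids with arbitrary centre -/
def IsEllipsoid (E : Set H) : Prop :=
  ∃ (c : H) (S : H ≃ₗ[ℝ] H), E = (fun x => c + S x) '' closedBall 0 1

/-- complete families of isometries -/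
def IsCompleteGroup (G : Set (H ≃ᵃⁱ[ℝ] H)) : Prop :=
  ∀ E : Set H, IsEllipsoid E → G ⊆ Sym E → ∃ (c : H) (r : ℝ), E = closedBall c r

/-- completely symmetric convex bodies -/
def CompletelySymmetric [FiniteDimensional ℝ H] [MeasurableSpace H] [BorelSpace H]
    (A : Set H) : Prop :=
  IsCompact A ∧ (interior A).Nonempty ∧ (⨍ x in A, x) = 0 ∧ IsCompleteGroup (Sym A)

/-- translates of completely symmetric sets -/
def IsTranslate [FiniteDimensional ℝ H] [MeasurableSpace H] [BorelSpace H] (B : Set H) : Prop :=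
  ∃ (v : H) (A : Set H), B = (fun x => x + v) '' A ∧ CompletelySymmetric A

/-- the orthogonal projection of `K` onto the hyperplane orthogonal to `u` is such a translate -/
def GoodProj [FiniteDimensional ℝ H] [MeasurableSpace H] [BorelSpace H] (K : Set H) (u : H) :
    Prop :=
  IsTranslate ((ℝ ∙ u)ᗮ.orthogonalProjectionOnto '' K)

end

theorem result : ∃ K : Set (EuclideanSpace ℝ (Fin 3)),
    IsCompact K ∧ Convex ℝ K ∧ (interior K).Nonempty ∧
    (∀ u : EuclideanSpace ℝ (Fin 3), ‖u‖ = 1 → GoodProj K u) ∧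
    ¬ ∃ (c : EuclideanSpace ℝ (Fin 3)) (r : ℝ), K = closedBall c r := by
  open Pool.Agent.H.MP_093203_gt in
  refine ⟨KK, KK_compact, KK_convex, ⟨0, interior_maximal (ball_subset_closedBall.trans ball_sub')
    isOpen_ball (mem_ball_self (by norm_num))⟩, fun u hu => ?_, not_ball⟩
  obtain ⟨v, A, b, h1, h2, h3, h5, h6⟩ := Pool.Agent.H.MP_093203_gt.main u hu
  refine ⟨v, A, h1, h2, h3, ?_, ?_⟩
  · have e2 : ∫ x in A, x = 0 := Pool.Agent.H.MP_093203_gt.fix0 b _
      (Pool.Agent.H.MP_093203_gt.int_fix A _ h5) (Pool.Agent.H.MP_093203_gt.int_fix A _ h6)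
    rw [setAverage_eq, e2, smul_zero]
  · rintro E ⟨c, S, hE⟩ hG
    refine Pool.Agent.H.MP_093203_gt.ball_of b c S E hE ?_ ?_
    · exact hG (a := (ℝ ∙ b 0).reflection.toAffineIsometryEquiv) h5
    · exact hG (a := (ℝ ∙ (b 0 + √3 • b 1)).reflection.toAffineIsometryEquiv) h6

end Pool.Agent.Results.MP_093203_gt.No
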